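import Pool.Agent.helper36.MP.SpecQ

set_option autoImplicit false

/-! # Project mp, REACH2: reaching the flat disc (helper82) -/

open Complex Metric Set Filter Topology MeasureTheory

noncomputable section

namespace MPS

/-- length of a radial path -/
theorem REACH2_B (f : ℝ → ℝ) (F : ℝ → ENNReal) (l t₀ T : ℝ) (hl : 0 < l) (ht : 0 ≤ t₀) (hT : t₀ + l ≤ T)
    (hf : ∀ t ∈ Ioo (0 : ℝ) 1, 0 ≤ f t ∧
      ENNReal.ofReal (f t) ≤ ENNReal.ofReal l + ENNReal.ofReal l * F (t₀ + l * t)) :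
    ENNReal.ofReal (∫ t in (0 : ℝ)..1, f t) ≤ ENNReal.ofReal l + ∫⁻ t in Ioo 0 T, F t := by
  rw [intervalIntegral.integral_of_le zero_le_one, integral_Ioc_eq_integral_Ioo]
  refine (Real.ofReal_le_enorm _).trans ((enorm_integral_le_lintegral_enorm _).trans ?_)
  have h1 : ∫⁻ t in Ioo (0 : ℝ) 1, ‖f t‖ₑ ≤
      ∫⁻ t in Ioo (0 : ℝ) 1, (ENNReal.ofReal l + ENNReal.ofReal l * F (t₀ + l * t)) := by
    refine setLIntegral_mono' measurableSet_Ioo fun t ht' => ?_
    rw [Real.enorm_eq_ofReal (hf t ht').1]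
    exact (hf t ht').2
  refine h1.trans ?_
  rw [lintegral_add_left measurable_const]
  have h2 : ∫⁻ _ in Ioo (0 : ℝ) 1, ENNReal.ofReal l = ENNReal.ofReal l := by
    rw [setLIntegral_const, Real.volume_Ioo, sub_zero, ENNReal.ofReal_one, mul_one]
  rw [h2]
  refine add_le_add le_rfl ?_
  have h3 := lintegral_image_eq_lintegral_abs_deriv_mul (s := Ioo (0 : ℝ) 1) (f := fun t => t₀ + l * t)
    (f' := fun _ => l) measurableSet_Ioo (fun x _ => by
      have := ((hasDerivAt_id x).const_mul l).const_add t₀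
      simpa using this.hasDerivWithinAt) (fun a _ b _ hab => by
      have h : l * a = l * b := by simpa using hab
      exact mul_left_cancel₀ hl.ne' h) F
  have h4 : ∫⁻ t in Ioo (0 : ℝ) 1, ENNReal.ofReal l * F (t₀ + l * t) =
      ∫⁻ x in (fun t => t₀ + l * t) '' Ioo (0 : ℝ) 1, F x := by
    rw [h3, abs_of_pos hl]
  rw [h4]
  refine lintegral_mono_set ?_
  rintro _ ⟨t, ⟨ht1, ht2⟩, rfl⟩
  have h5 : 0 < l * t := mul_pos hl ht1
  have h6 : l * t < l := by nlinarith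
  exact ⟨by linarith, by simp only; linarith⟩

theorem REACH2_sqrt {z : ℂ} : Real.sqrt ‖z‖ ≤ 1 + Real.sqrt ‖z - 1‖ := by
  have h0 := Real.sqrt_nonneg ‖z - 1‖
  have h1 := Real.sq_sqrt (norm_nonneg (z - 1))
  have h2 : ‖z‖ ≤ ‖z - 1‖ + 1 := by
    have := norm_add_le (z - 1) 1
    rw [sub_add_cancel, norm_one] at this
    exact this
  apply Real.sqrt_le_iff.2
  refine ⟨by linarith, ?_⟩
  nlinarith

theorem REACH2_F {u t : ℝ} {M : ENNReal} (hu : 0 ≤ u) (ht : 0 < t)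
    (h : ENNReal.ofReal u ≤ ENNReal.ofReal (4 / (Real.pi * t ^ 2)) * M) :
    ENNReal.ofReal (Real.sqrt u) ≤ ENNReal.ofReal (2 / (Real.sqrt Real.pi * t)) * M ^ (1 / 2 : ℝ) := by
  have e1 : ENNReal.ofReal (Real.sqrt u) = ENNReal.ofReal u ^ (1 / 2 : ℝ) := by
    rw [Real.sqrt_eq_rpow, ENNReal.ofReal_rpow_of_nonneg hu (by norm_num)]
  have e2 : ENNReal.ofReal (2 / (Real.sqrt Real.pi * t)) =
      ENNReal.ofReal (4 / (Real.pi * t ^ 2)) ^ (1 / 2 : ℝ) := by
    have hp := Real.pi_pos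
    rw [ENNReal.ofReal_rpow_of_nonneg (by positivity) (by norm_num), ← Real.sqrt_eq_rpow]
    congr 1
    rw [Real.sqrt_div (by norm_num), Real.sqrt_mul hp.le, Real.sqrt_sq ht.le]
    congr 1
    rw [show (4 : ℝ) = 2 ^ 2 by norm_num, Real.sqrt_sq (by norm_num)]
  rw [e1, e2, ← ENNReal.mul_rpow_of_nonneg _ _ (by norm_num)]
  exact ENNReal.rpow_le_rpow h (by norm_num)

theorem REACH2 (hNPL : NPL_stmt) (hNHP : NHP_stmt) (hLEA : LEA_stmt) (hINC : INC1_stmt) (hP2H : P2H_stmt)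
    (hP2A : P2A_stmt) (hPT2 : PT2_stmt) : REACH2_stmt := by
  intro n k _ c b g ψ R ε y ρ₁ χ G1 ps T G Q μ hH hε hMu p r hp1 hpk hpQ hps hr1 hr2 hnd
  by_contra hcon
  rw [not_le] at hcon
  have hSU2 := hH.su2
  have hSU := hSU2.su
  have hρ : 0 < ρ₁ := hSU2.r0
  have hsys := hH.sys
  -- radii
  have hTp : T p ≤ ρ₁ := by
    have : ∀ q, q ≤ Q → T q ≤ ρ₁ := by
      intro q
      induction q with
      | zero => intro _; exact hsys.t0
      | succ q ih => intro hq; exact (hsys.anti q hq).trans (ih (Nat.le_of_succ_le hq))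
    exact this p hpQ
  set x : ℂ := (y : ℂ) * I with hx
  set w₀ : ℂ := x - ρ₁ / 4 with hw₀
  -- the level system
  obtain ⟨-, -, -, hLev, -, -, -⟩ := hP2A n k c b g ψ R ε y ρ₁ χ G1 ps T G Q hH
  have hlev := hLev p hpQ
  have hav := (hLEA n k c b g G _ p hSU.hn hSU.cyc isOpen_ball hlev).1 p le_rfl
  have hpt := hPT2 n k c b g ψ R ε y ρ₁ χ G1 ps T G Q hH p hp1 hpQ
  have hdiff := hlev.diff p le_rfl
  obtain ⟨z, ⟨w₁, hw₁, hzw⟩, ⟨v₁, hv₁, hzv⟩⟩ := not_disjoint_iff.1 hnd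
  have hwv : G p w₁ = χ v₁ := by rw [hzw, hzv]
  rw [mem_ball, dist_eq_norm] at hw₁ hv₁
  -- open sets
  have hΩ : IsOpen (HP 0 ∪ ball x (16 * ρ₁)) := by
    refine IsOpen.union ?_ isOpen_ball
    exact isOpen_lt Complex.continuous_re continuous_const
  have hw₀x : ‖w₀ - x‖ = ρ₁ / 4 := by
    have e : w₀ - x = -((ρ₁ / 4 : ℝ) : ℂ) := by
      rw [hw₀]
      push_cast
      ring
    rw [e, norm_neg, Complex.norm_real, Real.norm_of_nonneg (by linarith)]
  -- the second path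
  have second : ∀ w₂ v₂ : ℂ, ‖w₂ - x‖ ≤ r - ρ₁ / 8 → ‖v₂ - x‖ < 3 * ρ₁ → G p w₂ = χ v₂ →
      ∃ v₃ : ℂ, ‖v₃ - x‖ < 5 * ρ₁ ∧ χ v₃ = G p w₀ := by
    intro w₂ v₂ h1 h2 h3
    have hbound : ∀ t ∈ Icc (0 : ℝ) 1, ‖(w₂ + t * (w₀ - w₂)) - x‖ ≤ r - ρ₁ / 8 := by
      intro t ht
      have hc := (convex_closedBall x (r - ρ₁ / 8)).add_smul_sub_mem (x := w₂) (y := w₀)
        (by rw [mem_closedBall, dist_eq_norm]; exact h1)
        (by rw [mem_closedBall, dist_eq_norm, hw₀x]; linarith) ht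
      rw [mem_closedBall, dist_eq_norm, Complex.real_smul] at hc
      exact hc
    have hlen : (∫ t in (0 : ℝ)..1, ‖w₀ - w₂‖ * Real.sqrt ‖deriv (G p) (w₂ + t * (w₀ - w₂)) ^ 2 *
        BB b g (G p (w₂ + t * (w₀ - w₂)))‖) ≤ 3 / 2 * ρ₁ := by
      have hh : ∀ t ∈ Set.uIoc (0 : ℝ) 1, ‖‖w₀ - w₂‖ * Real.sqrt ‖deriv (G p) (w₂ + t * (w₀ - w₂)) ^ 2 *
          BB b g (G p (w₂ + t * (w₀ - w₂)))‖‖ ≤ 3 / 2 * ρ₁ := by
        intro t ht
        rw [uIoc_of_le zero_le_one] at ht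
        have h4 := hbound t ⟨ht.1.le, ht.2⟩
        obtain ⟨h5, h6⟩ := hpt (w₂ + t * (w₀ - w₂)) (ρ₁ / 8) (by linarith) (by
          rw [← hx]; linarith)
        have h7 : 1300 * ε / (ρ₁ / 8) ^ 2 ≤ 1 / 16 := by
          rw [div_le_iff₀ (by positivity)]
          nlinarith [sq_nonneg ρ₁, hε]
        have h8 : ‖tau b g G p (w₂ + t * (w₀ - w₂)) - 1‖ ≤ 1 / 16 := h6.trans (h5.trans h7)
        have h9 : Real.sqrt ‖tau b g G p (w₂ + t * (w₀ - w₂))‖ ≤ 5 / 4 := by
          refine (REACH2_sqrt).trans ?_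
          have : Real.sqrt ‖tau b g G p (w₂ + t * (w₀ - w₂)) - 1‖ ≤ 1 / 4 := by
            apply Real.sqrt_le_iff.2
            refine ⟨by norm_num, h8.trans (by norm_num)⟩
          linarith
        have h10 : ‖w₀ - w₂‖ ≤ 9 / 8 * ρ₁ := by
          have : w₀ - w₂ = (w₀ - x) - (w₂ - x) := by ring
          rw [this]
          refine (norm_sub_le _ _).trans ?_
          rw [hw₀x]
          linarith
        rw [Real.norm_of_nonneg (by positivity)]
        have h11 := mul_le_mul h10 h9 (Real.sqrt_nonneg _) (by linarith)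
        have h12 : ‖w₀ - w₂‖ * Real.sqrt ‖deriv (G p) (w₂ + t * (w₀ - w₂)) ^ 2 *
          BB b g (G p (w₂ + t * (w₀ - w₂)))‖ ≤ 9 / 8 * ρ₁ * (5 / 4) := h11
        linarith
      have := intervalIntegral.norm_integral_le_of_norm_le_const hh
      rw [sub_zero, abs_one, mul_one] at this
      exact (le_abs_self _).trans this
    obtain ⟨v₃, h4, h5⟩ := hNPL k b g χ (G p) _ (ball x (T p)) v₂ w₂ w₀ (2 * ρ₁) hΩ isOpen_ball hSU2.nat
      (fun v hv => Or.inr (by
        rw [mem_ball, dist_eq_norm] at hv ⊢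
        have : v - x = (v - v₂) + (v₂ - x) := by ring
        rw [this]
        exact (norm_add_le _ _).trans_lt (by linarith))) hdiff hav
      ((convex_ball x (T p)).segment_subset (by rw [mem_ball, dist_eq_norm]; linarith)
        (by rw [mem_ball, dist_eq_norm, hw₀x]; linarith)) h3 (by linarith)
    refine ⟨v₃, ?_, h5⟩
    have : v₃ - x = (v₃ - v₂) + (v₂ - x) := by ring
    rw [this]
    exact (norm_add_le _ _).trans_lt (by linarith)
  -- the first path
  have first : ∃ w₂ v₂ : ℂ, ‖w₂ - x‖ ≤ r - ρ₁ / 8 ∧ ‖v₂ - x‖ < 3 * ρ₁ ∧ G p w₂ = χ v₂ := by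
    by_cases hw : ‖w₁ - x‖ ≤ r - ρ₁ / 8
    · exact ⟨w₁, v₁, hw, by linarith, hwv⟩
    · rw [not_le] at hw
      set a := ‖w₁ - x‖ with ha
      have ha0 : 0 < a := by linarith
      set κ : ℝ := (r - ρ₁ / 8) / a with hκ
      have hκ0 : 0 < κ := div_pos (by linarith) ha0
      have hκ1 : κ < 1 := (div_lt_one ha0).2 hw
      have hκa : κ * a = r - ρ₁ / 8 := div_mul_cancel₀ _ ha0.ne'
      set w₂ : ℂ := x + κ * (w₁ - x) with hw₂
      have hw₂x : ‖w₂ - x‖ = r - ρ₁ / 8 := by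
        have e : w₂ - x = κ * (w₁ - x) := by rw [hw₂]; ring
        rw [e, norm_mul, Complex.norm_real, Real.norm_of_nonneg hκ0.le, ← ha, hκa]
      have hl : ‖w₂ - w₁‖ = a - (r - ρ₁ / 8) := by
        have e : w₂ - w₁ = -(((1 - κ : ℝ) : ℂ) * (w₁ - x)) := by
          rw [hw₂]
          push_cast
          ring
        rw [e, norm_neg, norm_mul, Complex.norm_real, Real.norm_of_nonneg (by linarith), ← ha]
        linear_combination (-1 : ℝ) * hκa
      have hpath : ∀ t ∈ Icc (0 : ℝ) 1, ‖(w₁ + t * (w₂ - w₁)) - x‖ = a - t * (a - (r - ρ₁ / 8)) := by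
        intro t ht
        have e : w₁ + t * (w₂ - w₁) - x = ((1 - t * (1 - κ) : ℝ) : ℂ) * (w₁ - x) := by
          rw [hw₂]
          push_cast
          ring
        have h0 : 0 ≤ 1 - t * (1 - κ) := by nlinarith [ht.1, ht.2]
        rw [e, norm_mul, Complex.norm_real, Real.norm_of_nonneg h0, ← ha]
        linear_combination t * hκa
      have hlen := REACH2_B (fun t => ‖w₂ - w₁‖ * Real.sqrt ‖deriv (G p) (w₁ + t * (w₂ - w₁)) ^ 2 *
          BB b g (G p (w₁ + t * (w₂ - w₁)))‖)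
        (fun t => ENNReal.ofReal (2 / (Real.sqrt Real.pi * t)) *
          (μ (Ioo (ρ₁ - r + t / 2) (ρ₁ - r + 3 * t / 2))) ^ (1 / 2 : ℝ))
        (a - (r - ρ₁ / 8)) (r - a) (ρ₁ / 8) (by linarith) (by linarith) (by linarith) (by
          intro t ht
          refine ⟨by positivity, ?_⟩
          have hn := hpath t ⟨ht.1.le, ht.2.le⟩
          set w := w₁ + t * (w₂ - w₁) with hwdef
          have hpos : 0 < r - a + (a - (r - ρ₁ / 8)) * t := by
            have : 0 < (a - (r - ρ₁ / 8)) * t := mul_pos (by linarith) ht.1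
            linarith
          have hm := hMu p hp1 hpQ (ρ₁ - r) (r - a + (a - (r - ρ₁ / 8)) * t) w (by linarith) hpos (by
            rw [← hx, hn]
            ring)
          obtain ⟨-, h6⟩ := hpt w (r - a + (a - (r - ρ₁ / 8)) * t) hpos (by
            rw [← hx, hn]
            have : a - t * (a - (r - ρ₁ / 8)) + (r - a + (a - (r - ρ₁ / 8)) * t) = r := by ring
            rw [this]
            exact hr2)
          have h7 := REACH2_F (norm_nonneg (tau b g G p w - 1)) hpos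
            ((ENNReal.ofReal_le_ofReal h6).trans hm)
          rw [hl]
          have h8 : ENNReal.ofReal ((a - (r - ρ₁ / 8)) * Real.sqrt ‖deriv (G p) w ^ 2 * BB b g (G p w)‖) ≤
              ENNReal.ofReal ((a - (r - ρ₁ / 8)) + (a - (r - ρ₁ / 8)) * Real.sqrt ‖tau b g G p w - 1‖) := by
            apply ENNReal.ofReal_le_ofReal
            have h9 : Real.sqrt ‖deriv (G p) w ^ 2 * BB b g (G p w)‖ ≤ 1 + Real.sqrt ‖tau b g G p w - 1‖ :=
              REACH2_sqrt (z := tau b g G p w)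
            have h10 := mul_le_mul_of_nonneg_left h9 (by linarith : (0 : ℝ) ≤ a - (r - ρ₁ / 8))
            linarith
          refine h8.trans ?_
          rw [ENNReal.ofReal_add (by linarith) (mul_nonneg (by linarith) (Real.sqrt_nonneg _)),
            ENNReal.ofReal_mul (by linarith)]
          exact add_le_add le_rfl (mul_le_mul' le_rfl h7))
      have hlt : ENNReal.ofReal (a - (r - ρ₁ / 8)) + PsiM μ (ρ₁ / 8) (ρ₁ - r) <
          ENNReal.ofReal (ρ₁ / 8) + ENNReal.ofReal ρ₁ :=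
        ENNReal.add_lt_add_of_le_of_lt ENNReal.ofReal_ne_top (ENNReal.ofReal_le_ofReal (by linarith)) hcon
      rw [← ENNReal.ofReal_add (by linarith) hρ.le] at hlt
      have hlt2 := hlen.trans_lt hlt
      have hlt3 := (ENNReal.ofReal_lt_ofReal_iff (by linarith)).1 hlt2
      obtain ⟨v₂, h4, h5⟩ := hNPL k b g χ (G p) _ (ball x (T p)) v₁ w₁ w₂ (ρ₁ / 8 + ρ₁) hΩ isOpen_ball
        hSU2.nat
        (fun v hv => Or.inr (by
          rw [mem_ball, dist_eq_norm] at hv ⊢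
          have : v - x = (v - v₁) + (v₁ - x) := by ring
          rw [this]
          exact (norm_add_le _ _).trans_lt (by linarith))) hdiff hav
        ((convex_ball x (T p)).segment_subset (by rw [mem_ball, dist_eq_norm]; linarith)
          (by rw [mem_ball, dist_eq_norm, hw₂x]; linarith)) hwv hlt3
      refine ⟨w₂, v₂, hw₂x.le, ?_, h5.symm⟩
      have : v₂ - x = (v₂ - v₁) + (v₁ - x) := by ring
      rw [this]
      exact (norm_add_le _ _).trans_lt (by linarith)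
  obtain ⟨w₂, v₂, h1, h2, h3⟩ := first
  obtain ⟨v₃, h4, h5⟩ := second w₂ v₂ h1 h2 h3
  -- the value at `w₀` is in the cylinder of `b (-p)`
  have hG : G p w₀ ∈ ψ (-(p : ZMod k)) '' ball 0 1 := by
    have hv := hsys.val p hpQ
    rw [← hx, ← hw₀] at hv
    rw [hv]
    obtain ⟨hH1, -, -, -⟩ := hP2H n k c b g ψ R ε y ρ₁ χ G1 ps hSU2
    have hε' : ε ≤ (ρ₁ / 64) ^ 2 / 1024 := by
      have : ρ₁ ^ 2 / 10 ^ 7 ≤ (ρ₁ / 64) ^ 2 / 1024 := by
        rw [div_le_div_iff₀ (by norm_num) (by norm_num)]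
        nlinarith [sq_nonneg ρ₁]
      exact hε.trans this
    obtain ⟨Φ, κ, -, -, -, -, hsub⟩ := hINC n k c b g ψ R ε (ρ₁ / 64) (fun _ => 3 * (ρ₁ / 64)) G1 p
      (hH1 p hpk.le) hp1 hε'
    apply hsub
    refine ⟨Complex.exp w₀, ?_, rfl⟩
    rw [mem_ball_zero_iff, Complex.norm_exp]
    apply Real.exp_lt_exp.2
    have : w₀.re = -(ρ₁ / 4) := by
      rw [hw₀, hx]
      simp
    rw [this]
    linarith
  have hne : (0 : ZMod k) ≠ -(p : ZMod k) := by
    intro h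
    have h' : (p : ZMod k) = 0 := by
      have := congrArg Neg.neg h
      rw [neg_zero, neg_neg] at this
      exact this.symm
    rw [ZMod.natCast_eq_zero_iff] at h'
    exact absurd (Nat.le_of_dvd hp1 h') (not_le.2 hpk)
  rw [← h5] at hG
  have hfin := hNHP k b g 0 (-(p : ZMod k)) (ψ 0) (ψ (-(p : ZMod k))) χ y ρ₁ v₃ hSU.cyc.inj hne
    (hSU.mx 0).pn (hSU.mx _).pn hρ hSU2.nat hSU2.ext (by rw [← hx, mem_ball, dist_eq_norm]; exact h4) hG
  exact hps (hSU2.hps p hp1 hpk hfin)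

end MPS
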