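import Pool.Agent.helper36.MP.SpecP

set_option autoImplicit false

/-! # Project mp, SEQ1: all levels of Phase 1 (helper82) -/

open Complex Metric Set Filter Topology MeasureTheory

noncomputable section

namespace MPS

theorem SEQ1_fail {c : ℂ} {ψ : ℂ → ℂ} {δ : ℝ} {G G' : ℕ → ℂ → ℂ} {q : ℕ} {a : ℝ} (h : G' q = G q)
    (hf : Fail1 c ψ δ G q a) : Fail1 c ψ δ G' q a := by
  unfold Fail1 at hf ⊢
  rw [h]
  exact hf

theorem SEQ1 (hS : STEP1_stmt) : SEQ1_stmt := by
  intro n k _ c b g ψ R ε δ hSU h0 h1 hmp
  have key : ∀ Q : ℕ, Q ≤ k → ∃ (A : ℕ → ℝ) (G : ℕ → ℂ → ℂ), H1 n k c b g ψ R ε δ A G Q ∧ A 0 = 2 * δ ∧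
      ∀ q < Q, ∀ a, A q < a → a < A (q + 1) → Fail1 c (ψ 0) δ G q a := by
    intro Q
    induction Q with
    | zero =>
      intro _
      refine ⟨fun _ => 2 * δ, fun _ => ψ 0, ⟨hSU, h0, h1, hmp, ?_, Nat.zero_le _⟩, rfl,
        fun q hq => absurd hq (Nat.not_lt_zero _)⟩
      exact
        { a0 := le_rfl
          mono := fun q hq => absurd hq (Nat.not_lt_zero _)
          g0 := rfl
          diff := fun q hq hq' => absurd (hq.trans hq') (by norm_num)
          rel := fun q hq => absurd hq (Nat.not_lt_zero _)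
          val := fun q hq => by
            have : q = 0 := Nat.le_zero.1 hq
            subst this
            rw [Nat.cast_zero, neg_zero]
            exact (hSU.mx 0).pn.val
          disj := fun q _ hq => absurd hq (Nat.not_lt_zero _) }
    | succ Q ih =>
      intro hQ
      obtain ⟨A, G, hH, hA0, hf⟩ := ih (Nat.le_of_succ_le hQ)
      obtain ⟨a', g', ha', hH', hf'⟩ := hS n k c b g ψ R ε δ A G Q hH hQ
      refine ⟨Function.update A (Q + 1) a', Function.update G (Q + 1) g', hH', ?_, ?_⟩
      · rw [Function.update_of_ne (Nat.succ_ne_zero Q).symm]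
        exact hA0
      · intro q hq a h2 h3
        have e1 : Function.update A (Q + 1) a' q = A q := Function.update_of_ne (by omega) _ _
        have e2 : Function.update G (Q + 1) g' q = G q := Function.update_of_ne (by omega) _ _
        rw [e1] at h2
        apply SEQ1_fail e2
        rcases Nat.lt_succ_iff_lt_or_eq.1 hq with hq' | hq'
        · have e3 : Function.update A (Q + 1) a' (q + 1) = A (q + 1) := Function.update_of_ne (by omega) _ _
          rw [e3] at h3
          exact hf q hq' a h2 h3
        · subst hq'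
          rw [Function.update_self] at h3
          exact hf' a h2 h3
  obtain ⟨A, G, hH, hA0, hf⟩ := key k le_rfl
  exact ⟨A, G, hH, hA0, hf⟩

end MPS
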